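import Pool.Agent.Q7.TR.Tw

/-!
# The 3-parity conjecture: curves whose discriminant is a cube

`D : Inv` (`Pool.Agent.Q7.TR.Inv`) consists of two functions on the elliptic curves over number fields:
`D.rk` (for example the 3-infinity Selmer rank) and `D.w` (for example the global root number), with the
following properties, all of them known for the example:
* `rk_rel`, `w_rel`: if `Σ n_j Ind_{X_j}^K 1 = m` for finite extensions `X_j/K` (`fixn K F σ` is the number
  of the `K`-embeddings of `F` into the algebraic closure which are fixed by `σ`, that is the value at `σ`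
  of the permutation character `Ind_F^K 1`), then `Σ n_j rk(E/X_j) = m rk(E/K)` and
  `∏ w(E/X_j)^(n_j) = w(E/K)^m`;
* `twist`: `rk(E/F(√a)) = rk(E/F) + rk(E^a/F)` and `w(E/F(√a)) = w(E/F) w(E^a/F)` for the quadratic twist
  `E^a = tw E a : y² = x³ - 27 c₄ a² x - 54 c₆ a³`;
* `square`: the invariants do not change under the twist by a square;
* `isogeny`: the 3-parity conjecture for curves with a rational 3-isogeny (that is, the 3-division
  polynomial `Ψ₃` has a root; Dokchitser-Dokchitser, Cesnavicius);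
* `rational`: the 3-parity conjecture over `ℚ` (Dokchitser-Dokchitser).
-/

set_option autoImplicit false

namespace Pool.Agent.Results.MP_ddf76b_nt.CubeDiscriminants

open Polynomial Pool.Agent.Q7.TR

/-- The parity conjecture for `E/F` and the invariants `D`. -/
def Parity (D : Inv) (F : Type) [Field F] [NumberField F] (E : WeierstrassCurve F) : Prop :=
  (-1 : ℤˣ) ^ D.rk F E = D.w F E

/-- **Cube discriminants.**
1. If `Δ` is not a cube in `K`, `F = K(δ)` with `δ³ = Δ`, then the parity conjecture for `E/K` is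
equivalent to the parity conjecture for the quadratic twist of `E/F` by `c₄ - 12 δ`, a curve over the cubic
extension `F` whose discriminant is a cube.
2. It holds for this twist if `K = ℚ`.
3. The conjecture for all curves whose discriminant is a cube and which have no rational 3-isogeny implies
the conjecture for all elliptic curves over all number fields. -/
theorem result (D : Inv) :
    (∀ (K : Type) [Field K] [NumberField K] (E : WeierstrassCurve K), E.IsElliptic →
      (∀ d : K, d ^ 3 ≠ E.Δ) →
      ∀ (F : Type) [Field F] [NumberField F] [Algebra K F], Module.finrank K F = 3 →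
      ∀ δ : F, δ ^ 3 = algebraMap K F E.Δ →
        (tw (E.map (algebraMap K F)) (algebraMap K F E.c₄ - 12 * δ)).IsElliptic ∧
        (∃ d : F, d ^ 3 = (tw (E.map (algebraMap K F)) (algebraMap K F E.c₄ - 12 * δ)).Δ) ∧
        (Parity D K E ↔ Parity D F (tw (E.map (algebraMap K F)) (algebraMap K F E.c₄ - 12 * δ)))) ∧
    (∀ (E : WeierstrassCurve ℚ), E.IsElliptic → (∀ d : ℚ, d ^ 3 ≠ E.Δ) →
      ∀ (F : Type) [Field F] [NumberField F], Module.finrank ℚ F = 3 →
      ∀ δ : F, δ ^ 3 = algebraMap ℚ F E.Δ →
        Parity D F (tw (E.map (algebraMap ℚ F)) (algebraMap ℚ F E.c₄ - 12 * δ))) ∧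
    ((∀ (F : Type) [Field F] [NumberField F] (E : WeierstrassCurve F), E.IsElliptic →
        (∃ d : F, d ^ 3 = E.Δ) → (∀ x : F, E.Ψ₃.eval x ≠ 0) → Parity D F E) →
      ∀ (F : Type) [Field F] [NumberField F] (E : WeierstrassCurve F), E.IsElliptic →
        Parity D F E) := by
  have part1 : ∀ (K : Type) [Field K] [NumberField K] (E : WeierstrassCurve K), E.IsElliptic →
      (∀ d : K, d ^ 3 ≠ E.Δ) →
      ∀ (F : Type) [Field F] [NumberField F] [Algebra K F], Module.finrank K F = 3 →
      ∀ δ : F, δ ^ 3 = algebraMap K F E.Δ →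
        (tw (E.map (algebraMap K F)) (algebraMap K F E.c₄ - 12 * δ)).IsElliptic ∧
        (∃ d : F, d ^ 3 = (tw (E.map (algebraMap K F)) (algebraMap K F E.c₄ - 12 * δ)).Δ) ∧
        (Parity D K E ↔
          Parity D F (tw (E.map (algebraMap K F)) (algebraMap K F E.c₄ - 12 * δ))) := by
    intro K _ _ E hE hcube F _ _ _ h3 δ hδ
    have ha0 : algebraMap K F E.c₄ - 12 * δ ≠ 0 := by
      intro h0
      apply hcube (E.c₄ / 12)
      apply (algebraMap K F).injective
      rw [map_pow, map_div₀, sub_eq_zero.1 h0, map_ofNat, ← hδ]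
      congr 1
      field_simp
    refine ⟨tw_elliptic inferInstance ha0, ⟨1296 * (algebraMap K F E.c₄ - 12 * δ) ^ 2 * δ, ?_⟩, ?_⟩
    · rw [tw_Δ, WeierstrassCurve.map_Δ, ← hδ, mul_pow]
    · unfold Parity
      rw [← D.df_iff, ← D.df_iff, D.df_twist hE hcube F δ hδ h3]
  refine ⟨part1, ?_, ?_⟩
  · intro E hE hcube F _ _ h3 δ hδ
    exact (part1 ℚ E hE hcube F h3 δ hδ).2.2.1 (D.rational E hE)
  · intro h F _ _ E hE
    have hcub : ∀ (F : Type) [Field F] [NumberField F] (E : WeierstrassCurve F), E.IsElliptic →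
        (∃ d : F, d ^ 3 = E.Δ) → Parity D F E := by
      intro F _ _ E hE hd
      by_cases hx : ∃ x : F, E.Ψ₃.eval x = 0
      · exact D.isogeny F E hE hx
      · push Not at hx
        exact h F E hE hd hx
    by_cases hd : ∃ d : F, d ^ 3 = E.Δ
    · exact hcub F E hE hd
    · push Not at hd
      have hirr : Irreducible (Pool.Agent.Q5.BR.pol 3 E.Δ) :=
        X_pow_sub_C_irreducible_of_prime Nat.prime_three hd
      have hfact : Fact (Irreducible (Pool.Agent.Q5.BR.pol 3 E.Δ)) := ⟨hirr⟩
      have hnf : NumberField (AdjoinRoot (Pool.Agent.Q5.BR.pol 3 E.Δ)) :=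
        Pool.Agent.Q5.BR.numberField_rd
      have hδ : (AdjoinRoot.root (Pool.Agent.Q5.BR.pol 3 E.Δ)) ^ 3 =
          algebraMap F (AdjoinRoot (Pool.Agent.Q5.BR.pol 3 E.Δ)) E.Δ := by
        have h4 := AdjoinRoot.eval₂_root (Pool.Agent.Q5.BR.pol 3 E.Δ)
        unfold Pool.Agent.Q5.BR.pol at h4
        rw [eval₂_sub, eval₂_pow, eval₂_X, eval₂_C] at h4
        exact sub_eq_zero.1 h4
      have h5 := part1 F E hE hd (AdjoinRoot (Pool.Agent.Q5.BR.pol 3 E.Δ))
        (Pool.Agent.Q5.BR.finrank_rd (by norm_num) E.Δ) _ hδ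
      exact h5.2.2.2 (hcub _ _ h5.1 h5.2.1)

end Pool.Agent.Results.MP_ddf76b_nt.CubeDiscriminants
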