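import Pool.Agent.Q280.SP.NC

/-!
# The 2-parity conjecture over the quartic fields given by `j = -4 t³ (t + 8)`

`D : TwoInv` (`Pool.Agent.Q7.PM.TwoInv`) consists of two functions on the elliptic curves over number
fields: `D.rk` (for example the 2-infinity Selmer rank) and `D.w` (for example the global root number),
with the published properties listed there. (Theorem of helper7; one of the two parts of the former
joined hand-in NonsplitCartan, the other one is SpecialCurvesSuffice.)
-/

set_option autoImplicit false

namespace Pool.Agent.Results.MP_ddf76b_nt.ResolventQuartics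

open Pool.Agent.Q7.PM Pool.Agent.Q280.SP.NC

/-- **Quartic fields.**
1. Let `E/K` be an elliptic curve and `F = K(t)` of degree four with `j(E) = -4 t³ (t + 8)`. The
2-parity conjecture for `E/F` is equivalent to the 2-parity conjecture for `E/K`.
2. It holds for `E/F` if `K = ℚ`. -/
theorem result (D : TwoInv) :
    (∀ (K : Type) [Field K] [NumberField K] (E : WeierstrassCurve K), E.IsElliptic →
      ∀ (F : Type) [Field F] [NumberField F] [Algebra K F], Module.finrank K F = 4 →
      ∀ t : F, Algebra.adjoin K {t} = ⊤ →
      algebraMap K F E.c₄ ^ 3 = -4 * t ^ 3 * (t + 8) * algebraMap K F E.Δ →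
      (Parity D F (E.map (algebraMap K F)) ↔ Parity D K E)) ∧
    (∀ (E : WeierstrassCurve ℚ), E.IsElliptic →
      ∀ (F : Type) [Field F] [NumberField F], Module.finrank ℚ F = 4 →
      ∀ t : F, Algebra.adjoin ℚ {t} = ⊤ →
      algebraMap ℚ F E.c₄ ^ 3 = -4 * t ^ 3 * (t + 8) * algebraMap ℚ F E.Δ →
      Parity D F (E.map (algebraMap ℚ F))) :=
  ⟨(joined D).1, (joined D).2.1⟩

end Pool.Agent.Results.MP_ddf76b_nt.ResolventQuartics
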