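import Pool.Agent.Q280.SP.NC

/-!
# The 2-parity conjecture: reduction to special curves with `j = -4 t³ (t + 8)`

`D : TwoInv` (`Pool.Agent.Q7.PM.TwoInv`) consists of two functions on the elliptic curves over number
fields: `D.rk` (for example the 2-infinity Selmer rank) and `D.w` (for example the global root number),
with the published properties listed there. (Theorem of helper7; one of the two parts of the former
joined hand-in NonsplitCartan, the other one is ResolventQuartics.)
-/

set_option autoImplicit false

namespace Pool.Agent.Results.MP_ddf76b_nt.SpecialCurvesSuffice

open Polynomial Pool.Agent.Q7.PM Pool.Agent.Q280.SP.NC

/-- **Reduction to special curves.** For all `n` and all finite sets `S` of rational polynomials, the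
2-parity conjecture for the special curves (no rational point of order two, `j = -4 t³ (t + 8)` with `t`
in the field, and the division polynomials up to `n` and the polynomials in `S` have 2-hyperelementary
Galois groups) over all number fields implies the 2-parity conjecture for all elliptic curves over all
number fields. -/
theorem result (D : TwoInv) (n : ℕ) (S : Finset ℚ[X]) :
    (∀ (F : Type) [Field F] [NumberField F] (E : WeierstrassCurve F), E.IsElliptic →
      Special n S E → Parity D F E) →
    ∀ (F : Type) [Field F] [NumberField F] (E : WeierstrassCurve F), E.IsElliptic →
      Parity D F E :=
  (joined D).2.2 n S

end Pool.Agent.Results.MP_ddf76b_nt.SpecialCurvesSuffice
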