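import Pool.Agent.Q7.PM.Three

/-!
# The 2-parity conjecture: the defect depends only on the permutation character modulo two

`D : TwoInv` (`Pool.Agent.Q7.PM.TwoInv`) consists of two functions on the elliptic curves over number
fields: `D.rk` (for example the 2-infinity Selmer rank) and `D.w` (for example the global root number),
with the following properties, all of them known for the example:
* `rk_rel`, `w_rel`: if `Σ n_j Ind_{X_j}^K 1 = m` for finite extensions `X_j/K` (`fixn K F σ` is the number
  of the `K`-embeddings of `F` into the algebraic closure which are fixed by `σ`, that is the value at `σ`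
  of the permutation character `Ind_F^K 1`), then `Σ n_j rk(E/X_j) = m rk(E/K)` and
  `∏ w(E/X_j)^(n_j) = w(E/K)^m`;
* `quad`: the 2-parity conjecture for the base change of `E/F` to a quadratic extension of `F` (Kramer,
  Kramer-Tunnell, Dokchitser-Dokchitser);
* `tors`: the 2-parity conjecture for curves with a rational point of order two (Dokchitser-Dokchitser);
* `rational`: the 2-parity conjecture over `ℚ` (Monsky).

`NoFix E σ`: the automorphism `σ` of the algebraic closure fixes no root of the 2-division polynomial, that
is no point of order two of `E`.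
-/

set_option autoImplicit false

namespace Pool.Agent.Results.MP_ddf76b_nt.TwoParityLaw

open Polynomial Pool.Agent.Q7.PM Pool.Agent.Q5.BR Pool.Agent.W353.NF Pool.Agent.W401.Cheb

/-- The parity conjecture for `E/F` and the invariants `D`. -/
def Parity (D : TwoInv) (F : Type) [Field F] [NumberField F] (E : WeierstrassCurve F) : Prop :=
  (-1 : ℤˣ) ^ D.rk F E = D.w F E

/-- **The law modulo two.** Let `E/K` be an elliptic curve.
1. If `X_j/K` are finite extensions (repetitions are allowed) and every `σ` without fixed points of order
two fixes an even number of the embeddings of the `X_j`, then the number of the `j` for which the 2-parity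
conjecture fails for `E/X_j` is even.
2. If every such `σ` fixes an even number of the embeddings of `F`, then it holds for `E/F`; if every such
`σ` fixes an odd number of them, then it holds for `E/F` if and only if it holds for `E/K`.
3. If it holds for `E/K`, then it holds over every intermediate field of every finite Galois extension
`M/K` over which all points of order two are rational and whose degree divides `3 * 2 ^ k` for some `k`
(a 2-extension of the field of the points of order two).
4. If `K = ℚ`: it holds for `E/F` if the numbers of the embeddings of `F` fixed by the `σ` without fixed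
points of order two have the same parity. -/
theorem result (D : TwoInv) :
    (∀ (K : Type) [Field K] [NumberField K] (E : WeierstrassCurve K), E.IsElliptic →
      ∀ (ι : Type) [Fintype ι] (X : ι → Ext K),
      (∀ σ : GK K, NoFix E σ → Even (∑ j, fixn K (X j).F σ)) →
      Even (Nat.card {j : ι // ¬ Parity D (X j).F (E.map (algebraMap K (X j).F))})) ∧
    (∀ (K : Type) [Field K] [NumberField K] (E : WeierstrassCurve K), E.IsElliptic →
      ∀ (F : Type) [Field F] [NumberField F] [Algebra K F],
      ((∀ σ : GK K, NoFix E σ → Even (fixn K F σ)) → Parity D F (E.map (algebraMap K F))) ∧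
      ((∀ σ : GK K, NoFix E σ → Odd (fixn K F σ)) →
        (Parity D F (E.map (algebraMap K F)) ↔ Parity D K E))) ∧
    (∀ (K : Type) [Field K] [NumberField K] (E : WeierstrassCurve K), E.IsElliptic →
      Parity D K E → ∀ (k : ℕ) (M : Type) [Field M] [Algebra K M] [FiniteDimensional K M]
      [IsGalois K M], Module.finrank K M ∣ 3 * 2 ^ k → (E.Ψ₂Sq.map (algebraMap K M)).Splits →
      ∀ (F : Type) [Field F] [NumberField F] [Algebra K F], Nonempty (F →ₐ[K] M) →
      Parity D F (E.map (algebraMap K F))) ∧
    (∀ (E : WeierstrassCurve ℚ), E.IsElliptic → ∀ (F : Type) [Field F] [NumberField F],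
      (∀ σ τ : GK ℚ, NoFix E σ → NoFix E τ → (Even (fixn ℚ F σ) ↔ Even (fixn ℚ F τ))) →
      Parity D F (E.map (algebraMap ℚ F))) := by
  classical
  have hpar : ∀ (F : Type) [Field F] [NumberField F] (E : WeierstrassCurve F),
      Parity D F E ↔ pz (D.df F E) = 0 := by
    intro F _ _ E
    rw [pz_eq_zero, D.df_iff]
    rfl
  have hone : ∀ a : ZMod 2, a ≠ 0 → a = 1 := by decide
  have part1 : ∀ (K : Type) [Field K] [NumberField K] (E : WeierstrassCurve K), E.IsElliptic →
      ∀ (ι : Type) [Fintype ι] (X : ι → Ext K),
      (∀ σ : GK K, NoFix E σ → Even (∑ j, fixn K (X j).F σ)) →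
      Even (Nat.card {j : ι // ¬ Parity D (X j).F (E.map (algebraMap K (X j).F))}) := by
    intro K _ _ E hE ι _ X h
    have h1 := D.law hE X h
    have h2 : ∀ j, pz (D.df (X j).F (E.map (algebraMap K (X j).F))) =
        if ¬ Parity D (X j).F (E.map (algebraMap K (X j).F)) then 1 else 0 := by
      intro j
      by_cases h3 : Parity D (X j).F (E.map (algebraMap K (X j).F))
      · rw [if_neg (not_not.2 h3)]
        exact (hpar _ _).1 h3
      · rw [if_pos h3]
        exact hone _ fun h4 => h3 ((hpar _ _).2 h4)
    rw [Finset.sum_congr rfl fun j _ => h2 j, Finset.sum_boole] at h1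
    rw [Nat.card_eq_fintype_card, Fintype.card_subtype]
    exact (ZMod.natCast_eq_zero_iff_even).1 h1
  have part2 : ∀ (K : Type) [Field K] [NumberField K] (E : WeierstrassCurve K), E.IsElliptic →
      ∀ (F : Type) [Field F] [NumberField F] [Algebra K F],
      ((∀ σ : GK K, NoFix E σ → Even (fixn K F σ)) → Parity D F (E.map (algebraMap K F))) ∧
      ((∀ σ : GK K, NoFix E σ → Odd (fixn K F σ)) →
        (Parity D F (E.map (algebraMap K F)) ↔ Parity D K E)) := by
    intro K _ _ E hE F _ _ _
    constructor
    · intro h
      have h1 := D.law hE (ι := Unit) (fun _ => Ext.mk F) (fun σ hσ => by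
        rw [Fintype.sum_unique]
        exact h σ hσ)
      rw [Fintype.sum_unique] at h1
      exact (hpar _ _).2 h1
    · intro h
      have h1 := D.law hE (ι := Bool) (fun b => if b then Ext.mk F else Ext.mk K) (fun σ hσ => by
        rw [Fintype.sum_bool]
        change Even (fixn K F σ + fixn K K σ)
        rw [Pool.Agent.Q5.BR.fixn_self]
        exact (h σ hσ).add_one)
      rw [Fintype.sum_bool] at h1
      have h2 : pz (D.df F (E.map (algebraMap K F))) + pz (D.df K (E.map (algebraMap K K))) = 0 :=
        h1
      have h3 : E.map (algebraMap K K) = E := by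
        rw [Algebra.algebraMap_self]
        exact E.map_id
      rw [h3] at h2
      rw [hpar, hpar]
      constructor
      · intro h4
        rwa [h4, zero_add] at h2
      · intro h4
        rwa [h4, add_zero] at h2
  have part3 : ∀ (K : Type) [Field K] [NumberField K] (E : WeierstrassCurve K), E.IsElliptic →
      Parity D K E → ∀ (F : Type) [Field F] [NumberField F] [Algebra K F],
      (∀ σ τ : GK K, NoFix E σ → NoFix E τ → (Even (fixn K F σ) ↔ Even (fixn K F τ))) →
      Parity D F (E.map (algebraMap K F)) := by
    intro K _ _ E hE hK F _ _ _ h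
    by_cases h1 : ∀ σ : GK K, NoFix E σ → Even (fixn K F σ)
    · exact (part2 K E hE F).1 h1
    · push Not at h1
      obtain ⟨σ, hσ, hodd⟩ := h1
      refine ((part2 K E hE F).2 fun τ hτ => ?_).2 hK
      rw [← Nat.not_even_iff_odd, h τ σ hτ hσ]
      exact hodd
  refine ⟨part1, part2, ?_, ?_⟩
  · intro K _ _ E hE hK k M _ _ _ _ hM hs F _ _ _ hF
    obtain ⟨i₀⟩ := hF
    exact part3 K E hE hK F fun σ τ hσ hτ => parity_const hE hM hs i₀ hσ hτ
  · intro E hE F _ _ h
    exact part3 ℚ E hE (D.rational E hE) F h

end Pool.Agent.Results.MP_ddf76b_nt.TwoParityLaw
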